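import Pool.Agent.Helper15.GS.GoalsD

/-!
# GS, packet RKD: degenerate sums and the order of vanishing of `det (θ + s H)`
-/

open Complex Metric Set Filter Topology MeasureTheory
open scoped ContDiff ComplexConjugate ComplexOrder Manifold Matrix

namespace Pool.Agent.Helper55.GS

open Pool.Agent.Helper15.GS

variable {n : ℕ}

open scoped MatrixOrder in
theorem exists_factor {G : Matrix (Fin n) (Fin n) ℂ} (hG : G.PosDef) :
    ∃ B : Matrix (Fin n) (Fin n) ℂ, G = B * Bᴴ := by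
  obtain ⟨B, hB⟩ := CStarAlgebra.nonneg_iff_eq_star_mul_self.mp hG.posSemidef.nonneg
  refine ⟨Bᴴ, ?_⟩
  rw [Matrix.conjTranspose_conjTranspose]
  exact hB

theorem det_add_one {A : Matrix (Fin n) (Fin n) ℂ} (hA : A.IsHermitian) (s : ℝ) :
    (A + (s : ℂ) • (1 : Matrix (Fin n) (Fin n) ℂ)).det =
      ((∏ i, (hA.eigenvalues i + s) : ℝ) : ℂ) := by
  have h1 := hA.charpoly_eq
  have h2 := Matrix.eval_charpoly A (-(s : ℂ))
  rw [h1, Polynomial.eval_prod] at h2
  have h3 : Matrix.scalar (Fin n) (-(s : ℂ)) - A =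
      -(A + (s : ℂ) • (1 : Matrix (Fin n) (Fin n) ℂ)) := by
    ext i j
    by_cases hij : i = j
    · subst hij
      simp
      ring
    · simp [hij]
  rw [h3, Matrix.det_neg] at h2
  have h4 : ∀ i, Polynomial.eval (-(s : ℂ)) (Polynomial.X - Polynomial.C
      ((hA.eigenvalues i : ℝ) : ℂ)) = (-1) * ((hA.eigenvalues i + s : ℝ) : ℂ) := by
    intro i
    simp
    ring
  have h5 : ∏ i, Polynomial.eval (-(s : ℂ)) (Polynomial.X - Polynomial.C
      ((hA.eigenvalues i : ℝ) : ℂ)) =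
      (-1) ^ Fintype.card (Fin n) * ∏ i, ((hA.eigenvalues i + s : ℝ) : ℂ) := by
    rw [Finset.prod_congr rfl fun i _ => h4 i, Finset.prod_mul_distrib, Finset.prod_const]
    rfl
  have h6 := h5.symm.trans h2
  have h7 : ((-1 : ℂ)) ^ Fintype.card (Fin n) ≠ 0 := pow_ne_zero _ (by norm_num)
  have h8 := mul_left_cancel₀ h7 h6
  rw [← h8]
  push_cast
  rfl

theorem prod_bd {μ : Fin n → ℝ} {t s : ℝ} {m : ℕ} (hs : 0 < s) (hs1 : s ≤ 1)
    (hμ : ∀ i, 0 ≤ μ i) (hμt : ∀ i, μ i ≤ t)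
    (hc : Fintype.card {i // μ i ≠ 0} + m ≤ n) (ht : 0 ≤ t) :
    ∏ i, (μ i + s) ≤ s ^ m * (1 + t) ^ n := by
  classical
  have h1 : ∏ i, (μ i + s) ≤ ∏ i, if μ i ≠ 0 then 1 + t else s := by
    refine Finset.prod_le_prod (fun i _ => by linarith [hμ i]) fun i _ => ?_
    split_ifs with h
    · linarith [hμt i]
    · push Not at h
      rw [h, zero_add]
  refine h1.trans ?_
  rw [Finset.prod_ite, Finset.prod_const, Finset.prod_const, mul_comm]
  have h2 : (Finset.univ.filter fun i => μ i ≠ 0).card = Fintype.card {i // μ i ≠ 0} :=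
    (Fintype.card_subtype _).symm
  have h3 : (Finset.univ.filter fun i => μ i ≠ 0).card +
      (Finset.univ.filter fun i => ¬ (μ i ≠ 0)).card = n := by
    rw [Finset.card_filter_add_card_filter_not]
    simp
  have h4 : m ≤ (Finset.univ.filter fun i => ¬ (μ i ≠ 0)).card := by omega
  have h5 : (Finset.univ.filter fun i => μ i ≠ 0).card ≤ n := by omega
  refine mul_le_mul (pow_le_pow_of_le_one hs.le hs1 h4) (pow_le_pow_right₀ (by linarith) h5)
    (by positivity) (by positivity)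

theorem rank_bd {k : ℕ} {θ P : Matrix (Fin n) (Fin n) ℂ} (hP : P * P = P)
    (htr : Matrix.trace P = k) (hPθ : P * θ = 0) {v : Fin n → ℂ} (hv : v ᵥ* θ = 0)
    (hvP : v ᵥ* P ≠ v) : θ.rank + (k + 1) ≤ n := by
  set f : (Fin n → ℂ) →ₗ[ℂ] (Fin n → ℂ) := Pᵀ.mulVecLin with hf
  set g : (Fin n → ℂ) →ₗ[ℂ] (Fin n → ℂ) := θᵀ.mulVecLin with hg
  have hfa : ∀ u, f u = u ᵥ* P := fun u => by
    rw [hf, Matrix.mulVecLin_apply, Matrix.mulVec_transpose]
  have hga : ∀ u, g u = u ᵥ* θ := fun u => by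
    rw [hg, Matrix.mulVecLin_apply, Matrix.mulVec_transpose]
  have hproj : LinearMap.IsProj (LinearMap.range f) f := by
    refine ⟨fun x => LinearMap.mem_range_self f x, ?_⟩
    rintro _ ⟨y, rfl⟩
    rw [hfa, hfa, Matrix.vecMul_vecMul, hP]
  have h1 := hproj.trace
  have h2 : LinearMap.trace ℂ (Fin n → ℂ) f = k := by
    have : f = Matrix.toLin' Pᵀ := rfl
    rw [this, Matrix.trace_toLin'_eq, Matrix.trace_transpose, htr]
  rw [h2] at h1
  have h3 : k = Module.finrank ℂ (LinearMap.range f) := by exact_mod_cast h1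
  have h4 : LinearMap.range f < LinearMap.ker g := by
    refine lt_of_le_of_ne ?_ ?_
    · rintro _ ⟨y, rfl⟩
      rw [LinearMap.mem_ker, hga, hfa, Matrix.vecMul_vecMul, hPθ, Matrix.vecMul_zero]
    · intro he
      have h5 : v ∈ LinearMap.ker g := by rw [LinearMap.mem_ker, hga, hv]
      rw [← he] at h5
      obtain ⟨y, hy⟩ := h5
      apply hvP
      rw [← hy, hfa, Matrix.vecMul_vecMul, hP]
  have h5 := Submodule.finrank_lt_finrank_of_lt h4
  have h6 := LinearMap.finrank_range_add_finrank_ker g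
  rw [Module.finrank_fin_fun] at h6
  have h7 : Module.finrank ℂ (LinearMap.range g) = θ.rank := by
    rw [← Matrix.rank_transpose]
    rfl
  omega

theorem rkd : S_RKD := by
  intro n k H h θ P hH hh hθ hPP hPh htr hPθ
  have hβ : P * h = P * h * Pᴴ := by
    calc P * h = P * P * h := by rw [hPP]
      _ = P * (P * h) := Matrix.mul_assoc _ _ _
      _ = P * (h * Pᴴ) := by rw [hPh]
      _ = _ := (Matrix.mul_assoc _ _ _).symm
  have hβp : (P * h).PosSemidef := by
    rw [hβ]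
    exact hh.posSemidef.mul_mul_conjTranspose_same P
  have hsum : (θ + P * h).PosSemidef := hθ.add hβp
  have hdet := hsum.det_nonneg
  refine ⟨⟨(Complex.le_def.1 hdet).1, hβp⟩, ?_⟩
  intro h0 s hs hs1
  have hdet0 : (θ + P * h).det = 0 := by
    apply Complex.ext
    · rw [h0]; rfl
    · exact (Complex.le_def.1 hdet).2.symm
  obtain ⟨v, hv0, hv⟩ := Matrix.exists_vecMul_eq_zero_iff.2 hdet0
  set w : Fin n → ℂ := star v with hw
  have hstar : star w = v := star_star v
  have hq : star w ⬝ᵥ ((θ + P * h) *ᵥ w) = 0 := by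
    rw [hstar, Matrix.dotProduct_mulVec, hv, zero_dotProduct]
  rw [Matrix.add_mulVec, dotProduct_add] at hq
  have hq1 := hθ.dotProduct_mulVec_nonneg w
  have hq2 := hβp.dotProduct_mulVec_nonneg w
  have hz1 : star w ⬝ᵥ (θ *ᵥ w) = 0 := by
    refine le_antisymm ?_ hq1
    rw [← hq]
    exact le_add_of_nonneg_right hq2
  have hz2 : star w ⬝ᵥ ((P * h) *ᵥ w) = 0 := by
    rw [hz1, zero_add] at hq
    exact hq
  have hk1 : v ᵥ* θ = 0 := by
    have := (hθ.dotProduct_mulVec_zero_iff w).1 hz1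
    have h2 := congrArg star this
    rw [Matrix.star_mulVec, hstar, hθ.1.eq, star_zero] at h2
    exact h2
  have hvP : v ᵥ* P ≠ v := by
    intro he
    have h1 : star w ⬝ᵥ (h *ᵥ w) = 0 := by
      rw [← hz2, hstar, Matrix.dotProduct_mulVec, Matrix.dotProduct_mulVec,
        ← Matrix.vecMul_vecMul, he]
    have hw0 : w ≠ 0 := by
      intro h0
      apply hv0
      rw [← hstar, h0, star_zero]
    have := hh.dotProduct_mulVec_pos hw0
    rw [h1] at this
    exact lt_irrefl _ this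
  have hrank := rank_bd hPP htr hPθ hk1 hvP
  obtain ⟨S, hS⟩ := exists_factor hH
  have hSu : IsUnit S.det := by
    rw [isUnit_iff_ne_zero]
    intro h0
    have h1 := hH.det_pos.ne'
    rw [hS, Matrix.det_mul, h0, zero_mul] at h1
    exact h1 rfl
  have hSHu : IsUnit (Sᴴ).det := by
    rw [Matrix.det_conjTranspose]
    exact hSu.star
  have hSiu : IsUnit (S⁻¹).det := (Matrix.isUnit_nonsing_inv_det_iff).2 hSu
  have hSiHu : IsUnit ((S⁻¹)ᴴ).det := by
    rw [Matrix.det_conjTranspose]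
    exact hSiu.star
  set A := S⁻¹ * θ * (S⁻¹)ᴴ with hA
  have hAp : A.PosSemidef := hθ.mul_mul_conjTranspose_same S⁻¹
  have hAr : A.rank = θ.rank := by
    rw [hA, Matrix.rank_mul_eq_left_of_isUnit_det _ _ hSiHu,
      Matrix.rank_mul_eq_right_of_isUnit_det _ _ hSiu]
  have hfac : θ + (s : ℂ) • H = S * (A + (s : ℂ) • (1 : Matrix (Fin n) (Fin n) ℂ)) * Sᴴ := by
    have e1 : S * A * Sᴴ = θ := by
      rw [hA, Matrix.conjTranspose_nonsing_inv]
      calc S * (S⁻¹ * θ * Sᴴ⁻¹) * Sᴴ = S * S⁻¹ * θ * (Sᴴ⁻¹ * Sᴴ) := by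
            simp only [Matrix.mul_assoc]
        _ = θ := by
            rw [Matrix.mul_nonsing_inv _ hSu, Matrix.nonsing_inv_mul _ hSHu, Matrix.one_mul,
              Matrix.mul_one]
    rw [Matrix.mul_add, Matrix.add_mul, e1, Matrix.mul_smul, Matrix.mul_one, Matrix.smul_mul, ← hS]
  have htrA : Matrix.trace A = Matrix.trace (θ * H⁻¹) := by
    rw [hA, Matrix.mul_assoc, Matrix.trace_mul_comm, hS, Matrix.mul_inv_rev,
      Matrix.conjTranspose_nonsing_inv, Matrix.mul_assoc]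
  have hHdet : H.det = ((H.det.re : ℝ) : ℂ) := by
    apply Complex.ext
    · rfl
    · exact (Complex.lt_def.1 hH.det_pos).2.symm
  have hHpos : 0 < H.det.re := (Complex.lt_def.1 hH.det_pos).1
  have hd : (θ + (s : ℂ) • H).det =
      ((H.det.re * ∏ i, (hAp.1.eigenvalues i + s) : ℝ) : ℂ) := by
    rw [hfac, Matrix.det_mul, Matrix.det_mul, det_add_one hAp.1 s]
    have e2 : S.det * (Sᴴ).det = ((H.det.re : ℝ) : ℂ) := by
      rw [← hHdet, ← Matrix.det_mul, ← hS]
    push_cast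
    rw [← e2]
    ring
  have hμ : ∀ i, 0 ≤ hAp.1.eigenvalues i := hAp.eigenvalues_nonneg
  have hsumμ : ∑ i, hAp.1.eigenvalues i = (Matrix.trace (θ * H⁻¹)).re := by
    rw [← htrA, hAp.1.trace_eq_sum_eigenvalues]
    simp
  have hμt : ∀ i, hAp.1.eigenvalues i ≤ (Matrix.trace (θ * H⁻¹)).re := by
    intro i
    rw [← hsumμ]
    exact Finset.single_le_sum (f := hAp.1.eigenvalues) (fun j _ => hμ j) (Finset.mem_univ i)
  have ht : 0 ≤ (Matrix.trace (θ * H⁻¹)).re := by
    rw [← hsumμ]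
    exact Finset.sum_nonneg fun j _ => hμ j
  have hcard : Fintype.card {i // hAp.1.eigenvalues i ≠ 0} + (k + 1) ≤ n := by
    rw [← hAp.1.rank_eq_card_non_zero_eigs, hAr]
    exact hrank
  have hb := prod_bd hs hs1 hμ hμt hcard ht
  have hpr : 0 ≤ ∏ i, (hAp.1.eigenvalues i + s) :=
    Finset.prod_nonneg fun i _ => by linarith [hμ i]
  rw [hd, Complex.ofReal_re]
  refine ⟨mul_nonneg hHpos.le hpr, ?_⟩
  calc H.det.re * ∏ i, (hAp.1.eigenvalues i + s)
      ≤ H.det.re * (s ^ (k + 1) * (1 + (Matrix.trace (θ * H⁻¹)).re) ^ n) :=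
        mul_le_mul_of_nonneg_left hb hHpos.le
    _ = _ := by ring

end Pool.Agent.Helper55.GS
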